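import Pool.Agent.H77SP.Pos
import Pool.Agent.H77SP.Neg

set_option autoImplicit false

open Pool.Agent.H77SP

namespace Pool.Agent.Results.MP_fc9cb6_an.SchattenASA

universe u

/-- Let `H` be an infinite-dimensional separable Hilbert space (`b` is a Hilbert basis indexed by
`ℕ`) and `1 ≤ p < ∞`. The Banach algebra `S_p` (`SP b p`: the compact operators `T` on `H` with
`tr |T|^p < ∞`, normed by `(tr |T|^p)^{1/p}`, with composition as product) is approximately
semi-amenable if and only if `p = 1`. -/
theorem result {H : Type u} [NormedAddCommGroup H] [InnerProductSpace ℂ H] [CompleteSpace H]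
    (b : HilbertBasis ℕ ℂ H) (p : ℝ) [hp : Fact (1 ≤ p)] :
    ApproxSemiAmenable.{u, u} (SP b p) ↔ p = 1 := by
  constructor
  · intro h
    by_contra h1
    exact not_asa_of_gt (lt_of_le_of_ne hp.out (Ne.symm h1)) h
  · rintro rfl
    exact asa_one

end Pool.Agent.Results.MP_fc9cb6_an.SchattenASA
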